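import Pool.Agent.H55.CU.Targets

/-!
# The stretches without the last factor (row PQB of cou_modules, MP_65efe8_pr)
-/

set_option autoImplicit false

open MeasureTheory ProbabilityTheory Filter Topology
open scoped ENNReal
open Pool.Agent.H95 Pool.Agent.H95.Cop Pool.Agent.H96.Cop Pool.Agent.H55.CU

namespace Pool.Agent.H40.CU

/-- the inner sum -/
lemma inner_le (hA : T_AAL) (K : PMF ℕ) (k L a e : ℕ) (hk : 1 ≤ k) (he : e < k) (y : ℕ → ℝ)
    (c0 : ℝ≥0∞) (hc : ∀ r ∈ Finset.range k, c0 ≤ pk K (3 * k - 1 - r) * 2⁻¹) :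
    ∑ r ∈ Finset.range k, (if e ≤ a * k + r then AA K L (a * k + r - e) y * c0 else 0) ≤
      AA K L ((a + 2) * k + (k - 1) - e) y := by
  have h3 : (a + 2) * k = a * k + 2 * k := by ring
  refine le_trans ?_ (hA K L ((a + 2) * k + (k - 1) - e) y (by omega))
  rw [← Finset.sum_filter]
  have hinj : Set.InjOn (fun r => a * k + r - e)
      ((Finset.range k).filter fun r => e ≤ a * k + r : Finset ℕ) := by
    intro r hr r' hr' h
    rw [Finset.mem_coe, Finset.mem_filter] at hr hr'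
    simp only at h
    omega
  calc ∑ r ∈ (Finset.range k).filter (fun r => e ≤ a * k + r), AA K L (a * k + r - e) y * c0
      ≤ ∑ r ∈ (Finset.range k).filter (fun r => e ≤ a * k + r),
          (fun t => AA K L t y * (pk K ((a + 2) * k + (k - 1) - e - t) * 2⁻¹))
            (a * k + r - e) := by
        refine Finset.sum_le_sum fun r hr => ?_
        rw [Finset.mem_filter, Finset.mem_range] at hr
        have h4 : (a + 2) * k + (k - 1) - e - (a * k + r - e) = 3 * k - 1 - r := by omega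
        simp only
        rw [h4]
        exact mul_le_mul_right (hc r (Finset.mem_range.2 hr.1)) _
    _ = ∑ t ∈ ((Finset.range k).filter fun r => e ≤ a * k + r).image
          (fun r => a * k + r - e),
          AA K L t y * (pk K ((a + 2) * k + (k - 1) - e - t) * 2⁻¹) := by
        rw [Finset.sum_image hinj]
    _ ≤ ∑ t ∈ Finset.range ((a + 2) * k + (k - 1) - e),
          AA K L t y * (pk K ((a + 2) * k + (k - 1) - e - t) * 2⁻¹) := by
        apply Finset.sum_le_sum_of_subset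
        intro t ht
        obtain ⟨r, hr, rfl⟩ := Finset.mem_image.1 ht
        rw [Finset.mem_filter, Finset.mem_range] at hr
        rw [Finset.mem_range]
        omega

/-- the pointwise bound -/
lemma point_le (hA : T_AAL) (K : PMF ℕ) (k L a : ℕ) (hk : 1 ≤ k) (x : ℕ → ℝ)
    (c0 : ℝ≥0∞) (hc : ∀ r ∈ Finset.range k, c0 ≤ pk K (3 * k - 1 - r) * 2⁻¹) :
    PQ K k L a x * (c0 * ex ((a + 2) * k + (k - 1)) ((a + 2 + 1) * k) x) ≤
      PL K k L (a + 2) x := by
  have h3 : (a + 2) * k = a * k + 2 * k := by ring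
  unfold PQ PL
  rw [Finset.sum_mul]
  refine Finset.sum_le_sum fun e he => ?_
  rw [Finset.mem_range] at he
  have h1 : (if e ≤ (a + 2) * k + (k - 1) then ex 0 e x *
      AA K L ((a + 2) * k + (k - 1) - e) (shift e x) *
        ex ((a + 2) * k + (k - 1)) ((a + 2 + 1) * k) x else 0) ≤
      ∑ r ∈ Finset.range k, (if e ≤ (a + 2) * k + r then ex 0 e x *
        AA K L ((a + 2) * k + r - e) (shift e x) *
          ex ((a + 2) * k + r) ((a + 2 + 1) * k) x else 0) :=
    Finset.single_le_sum (f := fun r => if e ≤ (a + 2) * k + r then ex 0 e x *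
        AA K L ((a + 2) * k + r - e) (shift e x) *
          ex ((a + 2) * k + r) ((a + 2 + 1) * k) x else 0) (fun _ _ => zero_le)
      (Finset.mem_range.2 (by omega : k - 1 < k))
  refine le_trans ?_ h1
  rw [if_pos (by omega)]
  have h2 := inner_le hA K k L a e hk he (shift e x) c0 hc
  calc (∑ r ∈ Finset.range k, if e ≤ a * k + r then ex 0 e x *
        AA K L (a * k + r - e) (shift e x) else 0) *
        (c0 * ex ((a + 2) * k + (k - 1)) ((a + 2 + 1) * k) x)
      = ex 0 e x * (∑ r ∈ Finset.range k,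
          (if e ≤ a * k + r then AA K L (a * k + r - e) (shift e x) * c0 else 0)) *
          ex ((a + 2) * k + (k - 1)) ((a + 2 + 1) * k) x := by
        rw [← mul_assoc, Finset.sum_mul, Finset.mul_sum]
        congr 1
        refine Finset.sum_congr rfl fun r _ => ?_
        split_ifs
        · ring
        · ring
    _ ≤ _ := mul_le_mul_left (mul_le_mul_right h2 _) _

theorem pf_PQB (hA : T_AAL) (hM : T_MPL) : T_PQB := by
  intro K ν _ k L hk hK θ hθ hMo0 hMo1
  obtain ⟨c0, hc00, hc01, hmin⟩ : ∃ c0 : ℝ≥0∞, c0 ≠ 0 ∧ c0 ≠ ∞ ∧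
      ∀ r ∈ Finset.range k, c0 ≤ pk K (3 * k - 1 - r) * 2⁻¹ := by
    obtain ⟨r0, hr0, hmin⟩ := Finset.exists_min_image (Finset.range k)
      (fun r => pk K (3 * k - 1 - r) * 2⁻¹) ⟨0, Finset.mem_range.2 (by omega)⟩
    rw [Finset.mem_range] at hr0
    refine ⟨pk K (3 * k - 1 - r0) * 2⁻¹, ?_, ?_, hmin⟩
    · have h1 : pk K (3 * k - 1 - r0) ≠ 0 := by
        unfold pk
        exact (ENNReal.ofReal_pos.2 (hK _ (by omega))).ne'
      exact mul_ne_zero h1 (ENNReal.inv_ne_zero.2 (by norm_num))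
    · refine ENNReal.mul_ne_top ?_ (ENNReal.inv_ne_top.2 (by norm_num))
      unfold pk
      exact ENNReal.ofReal_ne_top
  have hD0 : c0 ^ θ * Mo ν θ ≠ 0 := mul_ne_zero
    (ENNReal.rpow_pos (pos_iff_ne_zero.2 hc00) hc01).ne' hMo0
  have hD1 : c0 ^ θ * Mo ν θ ≠ ∞ :=
    ENNReal.mul_ne_top (ENNReal.rpow_ne_top_of_nonneg hθ.le hc01) hMo1
  refine ⟨(c0 ^ θ * Mo ν θ)⁻¹, ENNReal.inv_ne_top.2 hD0, fun a => ?_⟩
  obtain ⟨-, hm, -, hd⟩ := hM K k L a
  have h3 : (a + 2) * k = a * k + 2 * k := by ring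
  have h4 : (a + 1) * k = a * k + k := by ring
  have h5 : (a + 2 + 1) * k = 1 + ((a + 2) * k + (k - 1)) := by
    have : (a + 2 + 1) * k = a * k + 3 * k := by ring
    omega
  have hle : c0 ^ θ * Mo ν θ * ∫⁻ x, PQ K k L a x ^ θ ∂(iid ν) ≤
      ∫⁻ x, PL K k L (a + 2) x ^ θ ∂(iid ν) := by
    have hdep : DepLt ((a + 2) * k + (k - 1)) (fun x => PQ K k L a x ^ θ) := by
      intro x x' h
      simp only
      rw [hd x x' fun i hi => h i (by omega)]
    have h6 := lint_mul_shift ν hdep (hm.pow_const θ) ((measurable_ex 0 1).pow_const θ)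
    rw [lint_ex_rpow ν θ hθ.le, pow_one] at h6
    have h7 : c0 ^ θ * Mo ν θ * ∫⁻ x, PQ K k L a x ^ θ ∂(iid ν) =
        ∫⁻ x, c0 ^ θ * ((fun x => PQ K k L a x ^ θ) x *
          (fun x => ex 0 1 x ^ θ) (shift ((a + 2) * k + (k - 1)) x)) ∂(iid ν) := by
      have hm3 : Measurable (fun x => (fun x => PQ K k L a x ^ θ) x *
          (fun x => ex 0 1 x ^ θ) (shift ((a + 2) * k + (k - 1)) x)) :=
        (hm.pow_const θ).mul (((measurable_ex 0 1).pow_const θ).comp (measurable_shift _))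
      rw [lintegral_const_mul _ hm3, h6]
      ring
    rw [h7]
    refine lintegral_mono fun x => ?_
    simp only
    have h8 := ENNReal.rpow_le_rpow (point_le hA K k L a hk x c0 fun r hr => hmin r hr) hθ.le
    refine le_trans (le_of_eq ?_) h8
    rw [ENNReal.mul_rpow_of_nonneg _ _ hθ.le, ENNReal.mul_rpow_of_nonneg _ _ hθ.le, ex_shift,
      zero_add, ← h5]
    ring
  calc ∫⁻ x, PQ K k L a x ^ θ ∂(iid ν)
      = (c0 ^ θ * Mo ν θ)⁻¹ * (c0 ^ θ * Mo ν θ * ∫⁻ x, PQ K k L a x ^ θ ∂(iid ν)) := by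
        rw [← mul_assoc, ENNReal.inv_mul_cancel hD0 hD1, one_mul]
    _ ≤ _ := mul_le_mul_right hle _

end Pool.Agent.H40.CU
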